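import Pool.Agent.H73.DA.Stm
import Mathlib.MeasureTheory.Function.Jacobian

set_option autoImplicit false

/-! # Stub PUSH of the project diagonal arrangements (helper73), proved by helper91

The substitution `x_j = y_j ^ (w_j)` on the quadrant `{y_j > 0, j ∈ T}`, for lower integrals. -/

namespace Pool.Agent.H91DA.Push

open MeasureTheory
open Pool.Agent.H73.DA

/-- The inverse substitution `y_j = x_j ^ (1 / w_j)` for `j ∈ T`. -/
noncomputable def phi {σ : Type} [DecidableEq σ] (w : σ → ℕ) (T : Finset σ) (x : σ → ℝ) : σ → ℝ :=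
  fun j => if j ∈ T then x j ^ ((1 : ℝ) / (w j : ℝ)) else x j

/-- The diagonal entries of the derivative of `phi`. -/
noncomputable def cc {σ : Type} [DecidableEq σ] (w : σ → ℕ) (T : Finset σ) (x : σ → ℝ) : σ → ℝ :=
  fun j => if j ∈ T then (1 / (w j : ℝ)) * x j ^ ((1 : ℝ) / (w j : ℝ) - 1) else 1

theorem main : S_PUSH := by
  intro σ _ _ w T hw hT g _hg
  set s : Set (σ → ℝ) := {y : σ → ℝ | ∀ j ∈ T, 0 < y j} with hs
  have hsm : MeasurableSet s := by
    have : s = ⋂ j ∈ T, {y : σ → ℝ | 0 < y j} := by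
      ext y; simp [hs]
    rw [this]
    exact Finset.measurableSet_biInter T (fun j _ => measurableSet_lt measurable_const (measurable_pi_apply j))
  -- derivative
  set D : (σ → ℝ) → ((σ → ℝ) →L[ℝ] (σ → ℝ)) :=
    fun x => LinearMap.toContinuousLinearMap (Matrix.toLin' (Matrix.diagonal (cc w T x))) with hD
  have hDer : ∀ x ∈ s, HasFDerivWithinAt (phi w T) (D x) s x := by
    intro x hx
    apply HasFDerivAt.hasFDerivWithinAt
    rw [hasFDerivAt_pi']
    intro j
    by_cases hj : j ∈ T
    · have hxj : 0 < x j := hx j hj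
      have h1 : HasDerivAt (fun t : ℝ => t ^ ((1 : ℝ) / (w j : ℝ)))
          ((1 / (w j : ℝ)) * x j ^ ((1 : ℝ) / (w j : ℝ) - 1)) (x j) :=
        Real.hasDerivAt_rpow_const (Or.inl hxj.ne')
      have h2 := h1.comp_hasFDerivAt x (hasFDerivAt_apply (𝕜 := ℝ) j x)
      refine (h2.congr_of_eventuallyEq ?_).congr_fderiv ?_
      · exact Filter.Eventually.of_forall (fun y => by simp [phi, hj])
      · ext v
        simp [hD, cc, hj, Matrix.toLin'_apply, Matrix.mulVec_diagonal]
    · have h2 := hasFDerivAt_apply (𝕜 := ℝ) j x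
      refine (h2.congr_of_eventuallyEq ?_).congr_fderiv ?_
      · exact Filter.Eventually.of_forall (fun y => by simp [phi, hj])
      · ext v
        simp [hD, cc, hj, Matrix.toLin'_apply, Matrix.mulVec_diagonal]
  have hpow : ∀ x ∈ s, pw w (phi w T x) = x := by
    intro x hx
    funext j
    by_cases hj : j ∈ T
    · have hxj : 0 < x j := hx j hj
      have : (phi w T x j) = x j ^ ((1 : ℝ) / (w j : ℝ)) := by simp [phi, hj]
      rw [pw, this, one_div]
      exact Real.rpow_inv_natCast_pow hxj.le (hw j).ne'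
    · simp [pw, phi, hj, hT j hj]
  have hinj : Set.InjOn (phi w T) s := by
    intro x hx y hy hxy
    rw [← hpow x hx, ← hpow y hy, hxy]
  have himg : phi w T '' s = s := by
    ext y
    constructor
    · rintro ⟨x, hx, rfl⟩
      intro j hj
      simp only [phi, hj, if_true]
      exact Real.rpow_pos_of_pos (hx j hj) _
    · intro hy
      refine ⟨pw w y, fun j hj => pow_pos (hy j hj) _, ?_⟩
      funext j
      by_cases hj : j ∈ T
      · simp only [phi, hj, if_true, pw, one_div]
        exact Real.pow_rpow_inv_natCast (hy j hj).le (hw j).ne'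
      · simp [pw, phi, hj, hT j hj]
  have key := lintegral_image_eq_lintegral_abs_det_fderiv_mul volume hsm hDer hinj
    (fun y => g (pw w y))
  rw [himg] at key
  rw [key]
  refine setLIntegral_congr_fun hsm ?_
  intro x hx
  have hdet : (D x).det = ∏ j ∈ T, ((1 / (w j : ℝ)) * x j ^ ((1 : ℝ) / (w j : ℝ) - 1)) := by
    have h0 : (D x).det = LinearMap.det (Matrix.toLin' (Matrix.diagonal (cc w T x))) := by
      simp [hD, ContinuousLinearMap.det]
    rw [h0, LinearMap.det_toLin', Matrix.det_diagonal]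
    simp only [cc]
    rw [Finset.prod_ite_mem, Finset.univ_inter]
  have hpos : ∀ j ∈ T, 0 ≤ ((1 / (w j : ℝ)) * x j ^ ((1 : ℝ) / (w j : ℝ) - 1)) := by
    intro j hj
    have := (hx j hj)
    positivity
  simp only
  rw [hpow x hx, hdet, abs_of_nonneg (Finset.prod_nonneg hpos), mul_comm,
    ENNReal.ofReal_prod_of_nonneg hpos]

end Pool.Agent.H91DA.Push
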